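import Pool.Agent.W269.BL.Stm

set_option autoImplicit false

open Polynomial

namespace Pool.Agent.W337.BL

open Pool.Agent.W269.BL

universe u

lemma finite_deg {K : Type u} [Field K] [Fintype K] (N : ℕ) :
    {F : K[X] | F.natDegree ≤ N}.Finite := by
  have : Finite (degreeLT K (N + 1)) := Finite.of_equiv _ (degreeLTEquiv K (N + 1)).toEquiv.symm
  have h : ((degreeLT K (N + 1) : Submodule K K[X]) : Set K[X]).Finite := Set.toFinite _
  refine h.subset ?_
  intro F hF
  simp only [Set.mem_ofPred_eq] at hF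
  simp only [SetLike.mem_coe, mem_degreeLT]
  exact lt_of_le_of_lt degree_le_natDegree (by exact_mod_cast Nat.lt_succ_of_le hF)

theorem main : StmCORE.{u} → StmRED.{u} → StmCNT.{u} → StmMAIN.{u} := by
  intro hCORE hRED hCNT K _ _ p _ _ hp2 n A B hA hprop ε hε
  obtain ⟨F₁, T, hT, hred⟩ := hRED K n A B hA hprop
  choose A' b e h1 h2 h3 h4 h5 h6 using hred
  have hpp : p.Prime := Fact.out
  have hp1 : 1 ≤ p := hpp.one_lt.le
  have hmul : ∀ s j, e s j * ε j = 1 ∨ e s j * ε j = -1 := by
    intro s j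
    rcases h5 s j with h | h <;> rcases hε j with h' | h' <;> rw [h, h'] <;> norm_num
  have hcore := fun s c => hCORE K p hp2 n (A' s) (b s) (fun j => e s j * ε j) (h1 s) (h2 s) (h3 s)
    (h4 s) (hmul s) c
  choose G₀ S h₀ hS hc using hcore
  set Bd : ℕ := ∑ s ∈ Finset.range p, ∑ c ∈ Finset.range 4,
    ((G₀ s c).natDegree + (S s c).natDegree) with hBd
  have hBd2 : ∀ s c, s < p → c < 4 → (G₀ s c).natDegree + (S s c).natDegree ≤ Bd := by
    intro s c hs hc4
    have e1 : (G₀ s c).natDegree + (S s c).natDegree ≤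
        ∑ c ∈ Finset.range 4, ((G₀ s c).natDegree + (S s c).natDegree) :=
      Finset.single_le_sum (f := fun c => (G₀ s c).natDegree + (S s c).natDegree)
        (fun _ _ => Nat.zero_le _) (Finset.mem_range.2 hc4)
    have e2 : (∑ c ∈ Finset.range 4, ((G₀ s c).natDegree + (S s c).natDegree)) ≤ Bd :=
      Finset.single_le_sum
        (f := fun s => ∑ c ∈ Finset.range 4, ((G₀ s c).natDegree + (S s c).natDegree))
        (fun _ _ => Nat.zero_le _) (Finset.mem_range.2 hs)
    exact e1.trans e2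
  refine ⟨F₁.natDegree + T.natDegree + Bd + 2, ?_⟩
  intro N m hN
  have hTN : T.natDegree ≤ N := by
    have : 1 * (m + (F₁.natDegree + T.natDegree + Bd + 2)) ≤
        p * (m + (F₁.natDegree + T.natDegree + Bd + 2)) := Nat.mul_le_mul_right _ hp1
    omega
  obtain ⟨s, hs⟩ : ∃ s, s = (N - T.natDegree) % p := ⟨_, rfl⟩
  obtain ⟨m', hm'⟩ : ∃ m', m' = (N - T.natDegree) / p := ⟨_, rfl⟩
  obtain ⟨c, hcc⟩ : ∃ c, c = (p * m') % 4 := ⟨_, rfl⟩
  have hsp : s < p := by rw [hs]; exact Nat.mod_lt _ hp1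
  have hc4 : c < 4 := by rw [hcc]; exact Nat.mod_lt _ (by norm_num)
  have hdec : N = T.natDegree + s + p * m' := by
    have := Nat.mod_add_div (N - T.natDegree) p
    rw [← hs, ← hm'] at this
    omega
  have hb := hBd2 s c hsp hc4
  have hmm : m + (F₁.natDegree + Bd + 1) ≤ m' := by
    by_contra hcon
    push Not at hcon
    have e1 : p * (m' + 1) ≤ p * (m + (F₁.natDegree + Bd + 1)) := Nat.mul_le_mul_left _ hcon
    have e2 : p * (m + (F₁.natDegree + T.natDegree + Bd + 2)) =
        p * (m + (F₁.natDegree + Bd + 1)) + p * T.natDegree + p := by ring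
    have e3 : T.natDegree ≤ p * T.natDegree := Nat.le_mul_of_pos_left _ hp1
    have e4 : p * (m' + 1) = p * m' + p := by ring
    omega
  have hpm : m' ≤ p * m' := Nat.le_mul_of_pos_left _ hp1
  have hcnt := hCNT K (S s c) (h₀ s c) (hS s c) m' (by omega)
  have hpow : Fintype.card K ^ m ≤ Fintype.card K ^ (m' - (S s c).natDegree) :=
    Nat.pow_le_pow_right Fintype.card_pos (by omega)
  refine hpow.trans (hcnt.trans ?_)
  set f : K[X] → K[X] := fun h => F₁ + X ^ s * T * (G₀ s c + h ^ p) with hf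
  have hXT : (X ^ s * T : K[X]) ≠ 0 := mul_ne_zero (pow_ne_zero _ X_ne_zero) hT.ne_zero
  have finj : Function.Injective f := by
    intro x y hxy
    simp only [hf] at hxy
    have q1 := mul_left_cancel₀ hXT (add_left_cancel hxy)
    have q2 := add_left_cancel q1
    exact frobenius_inj K[X] p (by simpa [frobenius_def] using q2)
  rw [← Set.ncard_image_of_injective _ finj]
  apply Set.ncard_le_ncard
  · rintro _ ⟨h, ⟨hmon, hdeg, hdvd⟩, rfl⟩
    have k1 : (h ^ p).Monic := hmon.pow p
    have k2 : (h ^ p).natDegree = p * m' := by rw [hmon.natDegree_pow, hdeg]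
    have k3 : (G₀ s c).natDegree < (h ^ p).natDegree := by omega
    have k4 : (G₀ s c + h ^ p).Monic := k1.add_of_right (degree_lt_degree k3)
    have k5 : (G₀ s c + h ^ p).natDegree = p * m' := by
      rw [natDegree_add_eq_right_of_natDegree_lt k3, k2]
    have k6 : (X ^ s * T : K[X]).Monic := (monic_X_pow s).mul hT
    have k7 : (X ^ s * T * (G₀ s c + h ^ p)).Monic := k6.mul k4
    have k8 : (X ^ s * T * (G₀ s c + h ^ p)).natDegree = N := by
      rw [k6.natDegree_mul k4, (monic_X_pow s).natDegree_mul hT, natDegree_X_pow, k5]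
      omega
    have k9 : F₁.natDegree < (X ^ s * T * (G₀ s c + h ^ p)).natDegree := by
      rw [k8]
      omega
    have hcj := hc s c h hmon hdvd (by rw [hdeg]; omega) (by rw [hdeg, hcc]; simp)
    refine ⟨k7.add_of_right (degree_lt_degree k9), ?_, ?_⟩
    · simp only [hf]
      rw [natDegree_add_eq_right_of_natDegree_lt k9, k8]
    · intro j
      obtain ⟨g1, g2⟩ := hcj j
      obtain ⟨g3, g4⟩ := h6 s (G₀ s c + h ^ p) j g1
      refine ⟨g3, ?_⟩
      simp only [hf]
      rw [g4, g2]
      rcases h5 s j with q | q <;> rw [q] <;> ring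
  · exact (finite_deg N).subset (fun F hF => hF.2.1.le)

end Pool.Agent.W337.BL
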